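import Pool.Agent.Helper98_HAM.Rec

/-!
# GLO: the word counts the accepting runs
-/

namespace Pool.Agent.HAM.H98

attribute [local instance] HSys.fin HSys.dec

theorem app_append (w w' : List Op) (F : List (Fin 3) → ZMod 2) : ∀ u,
    app (w ++ w') F u = app w (app w' F) u := by
  induction w with
  | nil => intro u; rfl
  | cons o w ih =>
    intro u
    cases o with
    | rot k => simp [app, ih]
    | vtx i a b => simp [app, ih]

theorem rotate_split (l r : List (Fin 3)) (k : ℕ) :
    ∃ l' r', ∀ v : Fin 3, (l ++ v :: r).rotate k = l' ++ v :: r' := by
  induction k with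
  | zero => exact ⟨l, r, fun v => by simp⟩
  | succ k ih =>
    obtain ⟨l', r', h⟩ := ih
    cases l' with
    | nil =>
      refine ⟨r', [], fun v => ?_⟩
      rw [← List.rotate_rotate, h v]
      simp
    | cons x l' =>
      refine ⟨l', r' ++ [x], fun v => ?_⟩
      rw [← List.rotate_rotate, h v]
      simp

theorem even_app (w : List Op) (F : List (Fin 3) → ZMod 2) (hF : EvenF F) : EvenF (app w F) := by
  induction w with
  | nil => exact hF
  | cons o w ih =>
    intro l r
    cases o with
    | rot k =>
      obtain ⟨l', r', h⟩ := rotate_split l r k
      simp only [app]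
      simp only [h]
      exact ih l' r'
    | vtx i a b =>
      simp only [app]
      by_cases h1 : l.length < i
      · -- the place is to the left
        have e1 : ∀ v : Fin 3, (l ++ v :: r).take i = l ++ v :: r.take (i - l.length - 1) := by
          intro v
          rw [List.take_append, List.take_of_length_le (by omega)]
          congr 1
          obtain ⟨k, hk⟩ : ∃ k, i - l.length = k + 1 := ⟨i - l.length - 1, by omega⟩
          rw [hk, List.take_succ_cons]
          simp
        have e2 : ∀ (v : Fin 3) (j : ℕ), i ≤ j →
            (l ++ v :: r).drop j = r.drop (j - l.length - 1) := by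
          intro v j hj
          rw [List.drop_append, List.drop_of_length_le (by omega)]
          obtain ⟨k, hk⟩ : ∃ k, j - l.length = k + 1 := ⟨j - l.length - 1, by omega⟩
          rw [hk, List.drop_succ_cons]
          simp
        simp only [e1, e2 _ i le_rfl, e2 _ (i + a) (by omega)]
        rw [Finset.sum_comm]
        refine Finset.sum_eq_zero fun c _ => ?_
        split_ifs with h
        · simp
        · have := ih l (r.take (i - l.length - 1) ++ List.replicate b c ++
            r.drop (i + a - l.length - 1))
          simpa [List.append_assoc] using this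
      · by_cases h2 : l.length < i + a
        · -- the place is absorbed
          have e1 : ∀ v : Fin 3, (l ++ v :: r).take i = l.take i := by
            intro v
            rw [List.take_append_of_le_length (by omega)]
          have e2 : ∀ (v : Fin 3), ((l ++ v :: r).drop i).take a =
              l.drop i ++ v :: r.take (i + a - l.length - 1) := by
            intro v
            rw [List.drop_append_of_le_length (by omega), List.take_append,
              List.take_of_length_le (by simp; omega)]
            congr 1
            have : a - (l.drop i).length = (i + a - l.length - 1) + 1 := by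
              simp; omega
            rw [this, List.take_succ_cons]
          have e3 : ∀ (v : Fin 3), (l ++ v :: r).drop (i + a) = r.drop (i + a - l.length - 1) := by
            intro v
            rw [List.drop_append, List.drop_of_length_le (by omega)]
            obtain ⟨k, hk⟩ : ∃ k, i + a - l.length = k + 1 := ⟨i + a - l.length - 1, by omega⟩
            rw [hk, List.drop_succ_cons]
            simp
          simp only [e1, e2, e3]
          rw [Finset.sum_comm]
          refine Finset.sum_eq_zero fun c _ => ?_
          by_cases hc : c ∈ l.drop i ++ r.take (i + a - l.length - 1)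
          · refine Finset.sum_eq_zero fun v _ => ?_
            rw [if_pos]
            rw [List.mem_append] at hc ⊢
            rcases hc with hc | hc
            · exact Or.inl hc
            · exact Or.inr (List.mem_cons_of_mem _ hc)
          · have e4 : ∀ v : Fin 3, (c ∈ l.drop i ++ v :: r.take (i + a - l.length - 1)) ↔ c = v := by
              intro v
              rw [List.mem_append, not_or] at hc
              rw [List.mem_append, List.mem_cons]
              tauto
            simp only [e4]
            generalize app w F (l.take i ++ List.replicate b c ++ r.drop (i + a - l.length - 1)) = y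
            fin_cases c <;> simp [Fin.sum_univ_three] <;> exact CharTwo.add_self_eq_zero y
        · -- the place is to the right
          have e1 : ∀ v : Fin 3, (l ++ v :: r).take i = l.take i := by
            intro v
            rw [List.take_append_of_le_length (by omega)]
          have e2 : ∀ (v : Fin 3), ((l ++ v :: r).drop i).take a = (l.drop i).take a := by
            intro v
            rw [List.drop_append_of_le_length (by omega), List.take_append_of_le_length (by simp; omega)]
          have e3 : ∀ (v : Fin 3), (l ++ v :: r).drop (i + a) = l.drop (i + a) ++ v :: r := by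
            intro v
            rw [List.drop_append_of_le_length (by omega)]
          simp only [e1, e2, e3]
          rw [Finset.sum_comm]
          refine Finset.sum_eq_zero fun c _ => ?_
          split_ifs with h
          · simp
          · have := ih (l.take i ++ List.replicate b c ++ l.drop (i + a)) r
            simpa [List.append_assoc] using this

theorem even_Fend : EvenF Fend := by
  intro l r
  refine Finset.sum_eq_zero fun v _ => ?_
  simp [Fend]

theorem shift_zero (w : List Op) : shift 0 w = w := by
  unfold shift
  conv_rhs => rw [← List.map_id w]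
  refine List.map_congr_left fun o _ => ?_
  cases o <;> rfl

variable {A : Type} {H : HSys A} {T : Tiles A}

open Classical in
/-- the tiles without context -/
theorem sem_zero (hS : T.Sem H) : ∃ blk : H.Q → List (Fin 3), (∀ q, (blk q).length = T.k) ∧
    ∀ F, EvenF F → ∀ r : List (Fin 3),
    (app T.start F ([1, 1, 0] ++ r) = F (blk H.init ++ r)) ∧
    (∀ a s, app (T.row a) F (blk s ++ r) =
      ∑ t : H.Q, if H.row a s t then F (blk t ++ (blk t ++ r)) else 0) ∧
    (∀ s t, app T.reg F (blk s ++ (blk t ++ r)) =
      F (blk (H.next s t) ++ (blk (H.next s t) ++ r))) ∧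
    (∀ s, app T.fin F (blk s ++ r) = if H.acc s then F ([1, 2, 2] ++ r) else 0) ∧
    (∀ s, app T.drop F ([1, 2, 2] ++ (blk s ++ r)) = F ([1, 2, 2] ++ r)) := by
  obtain ⟨blk, h1, h2⟩ := hS
  refine ⟨blk, h1, fun F hF r => ?_⟩
  obtain ⟨ha, hb, hc, hd, he⟩ := h2 F hF [] r
  simp only [List.length_nil, shift_zero, List.nil_append] at ha hb hc hd he
  refine ⟨ha, fun a s => ?_, hc, fun s => ?_, he⟩
  · rw [hb a s]
  · rw [hd s]

theorem glo_drops (blk : H.Q → List (Fin 3))
    (hd : ∀ F, EvenF F → ∀ (r : List (Fin 3)) s,
      app T.drop F ([1, 2, 2] ++ (blk s ++ r)) = F ([1, 2, 2] ++ r))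
    (F : List (Fin 3) → ZMod 2) (hF : EvenF F) : ∀ W : List H.Q,
    app (List.replicate W.length T.drop).flatten F ([1, 2, 2] ++ W.flatMap blk) = F [1, 2, 2] := by
  intro W
  induction W with
  | nil => rfl
  | cons s W ih =>
    rw [List.length_cons, List.replicate_succ, List.flatten_cons, app_append, List.flatMap_cons,
      hd _ (even_app _ _ hF), ih]

theorem rotate_blk (k : ℕ) (x y : List (Fin 3)) (hx : x.length = k) :
    (x ++ (x ++ y)).rotate k = x ++ (y ++ x) := by
  subst hx
  rw [List.rotate_append_length_eq, List.append_assoc]

theorem glo : GloStmt := by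
  classical
  intro A _ H T hG hS v M hv
  obtain ⟨blk, hlen, hsem⟩ := sem_zero hS
  -- the end
  have hend : app ([.vtx 0 1 1, .vtx 1 2 1] ++ [.vtx 0 2 0]) Fend [1, 2, 2] = 1 := by
    decide
  -- accepting
  have hfin : ∀ (w : H.Q) (W : List H.Q), app (T.fin ++ ((List.replicate W.length T.drop).flatten ++
      ([.vtx 0 1 1, .vtx 1 2 1] ++ [.vtx 0 2 0]))) Fend (blk w ++ W.flatMap blk) =
      if H.acc w then 1 else 0 := by
    intro w W
    rw [app_append, ((hsem _ (even_app _ _ even_Fend) _).2.2.2.1 w), app_append,
      glo_drops blk (fun F hF r s => (hsem F hF r).2.2.2.2 s) _ (even_app _ _ even_Fend), hend]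
  -- the regular tiles
  have hreg : ∀ (M : ℕ) (w : H.Q) (W : List H.Q), W ≠ [] →
      app ((List.replicate M (T.reg ++ [.rot T.k])).flatten ++
        (T.fin ++ ((List.replicate W.length T.drop).flatten ++
        ([.vtx 0 1 1, .vtx 1 2 1] ++ [.vtx 0 2 0])))) Fend (blk w ++ W.flatMap blk) =
      ((N H [] M w W : ℕ) : ZMod 2) := by
    intro M
    induction M with
    | zero =>
      intro w W hW
      rw [N_nil_zero, List.replicate_zero, List.flatten_nil, List.nil_append, hfin]
      split_ifs <;> simp
    | succ M ih =>
      intro w W hW
      obtain ⟨y, W, rfl⟩ := List.exists_cons_of_ne_nil hW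
      rw [N_nil_succ, ← ih (H.next w y) (W ++ [H.next w y]) (by simp), List.replicate_succ,
        List.flatten_cons, List.append_assoc, List.append_assoc, app_append, List.flatMap_cons,
        ((hsem _ (even_app _ _ even_Fend) _).2.2.1 w y), List.singleton_append, app,
        rotate_blk _ _ _ (hlen _)]
      simp
  -- the first row
  have hrow : ∀ (v : List A) (w : H.Q) (W : List H.Q), v ≠ [] ∨ W ≠ [] →
      app (v.flatMap (fun a => T.row a ++ [.rot T.k]) ++
        ((List.replicate M (T.reg ++ [.rot T.k])).flatten ++
        (T.fin ++ ((List.replicate (W.length + v.length) T.drop).flatten ++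
        ([.vtx 0 1 1, .vtx 1 2 1] ++ [.vtx 0 2 0]))))) Fend (blk w ++ W.flatMap blk) =
      ((N H v M w W : ℕ) : ZMod 2) := by
    intro v
    induction v with
    | nil =>
      intro w W hW
      rw [List.flatMap_nil, List.nil_append, List.length_nil, Nat.add_zero]
      exact hreg M w W (by simpa using hW)
    | cons a v ih =>
      intro w W _
      rw [N_cons, List.flatMap_cons, List.append_assoc, List.append_assoc, app_append,
        ((hsem _ (even_app _ _ even_Fend) _).2.1 a w), Nat.cast_sum]
      refine Finset.sum_congr rfl fun x _ => ?_
      by_cases hx : H.row a w x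
      · rw [if_pos hx, if_pos hx, ← ih x (W ++ [x]) (Or.inr (by simp)), List.singleton_append, app,
          rotate_blk _ _ _ (hlen _)]
        simp [Nat.add_comm, Nat.add_left_comm]
      · rw [if_neg hx, if_neg hx, Nat.cast_zero]
  have h := hrow v H.init [] (Or.inl hv)
  rw [count_eq, ← h]
  have h0 := (hsem (app (v.flatMap (fun a => T.row a ++ [.rot T.k]) ++
        ((List.replicate M (T.reg ++ [.rot T.k])).flatten ++
        (T.fin ++ ((List.replicate v.length T.drop).flatten ++
        ([.vtx 0 1 1, .vtx 1 2 1] ++ [.vtx 0 2 0]))))) Fend) (even_app _ _ even_Fend) []).1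
  rw [List.append_nil, List.append_nil] at h0
  rw [Tiles.word, List.flatMap_nil, List.append_nil, List.length_nil, Nat.zero_add, ← h0,
    ← app_append]
  simp only [List.append_assoc]

end Pool.Agent.HAM.H98
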