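import Pool.Agent.Helper98_HAM.Rec

/-!
# SUB: helical systems whose runs are the nonempty sets of at most `K` runs
-/

namespace Pool.Agent.HAM.H98

attribute [local instance] HSys.fin HSys.dec

variable {A : Type}

/-! ### Unions -/

section Union

variable {ι : Type} [Fintype ι] [DecidableEq ι] (Hs : ι → HSys A)

/-- the disjoint union of helical systems -/
abbrev union : HSys A where
  Q := Option (Σ i, (Hs i).Q)
  fin := inferInstance
  dec := inferInstance
  init := none
  row := fun a s t => ∃ i x, t = some ⟨i, x⟩ ∧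
    ((s = none ∧ (Hs i).row a (Hs i).init x) ∨ ∃ y, s = some ⟨i, y⟩ ∧ (Hs i).row a y x)
  next := fun s t => match s, t with
    | some s, some t => if h : t.1 = s.1 then some ⟨s.1, (Hs s.1).next s.2 (h ▸ t.2)⟩ else none
    | _, _ => none
  acc := fun s => ∃ i x, s = some ⟨i, x⟩ ∧ (Hs i).acc x

theorem union_row_none (a : A) (i : ι) (x : (Hs i).Q) :
    (union Hs).row a none (some ⟨i, x⟩) ↔ (Hs i).row a (Hs i).init x := by
  constructor
  · rintro ⟨i', x', h, h' | ⟨y, h', _⟩⟩
    · cases h
      exact h'.2
    · cases h'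
  · intro h
    exact ⟨i, x, rfl, Or.inl ⟨rfl, h⟩⟩

theorem union_row_some (a : A) (i i' : ι) (y : (Hs i).Q) (x : (Hs i').Q) :
    (union Hs).row a (some ⟨i, y⟩) (some ⟨i', x⟩) ↔ ∃ h : i' = i, (Hs i).row a y (h ▸ x) := by
  constructor
  · rintro ⟨i1, x1, h, h' | ⟨y1, h', h2⟩⟩
    · cases h'.1
    · cases h
      cases h'
      exact ⟨rfl, h2⟩
  · rintro ⟨rfl, h⟩
    exact ⟨i', x, rfl, Or.inr ⟨y, rfl, h⟩⟩

theorem union_not_row (a : A) (s : (union Hs).Q) : ¬ (union Hs).row a s none := by
  rintro ⟨i, x, h, _⟩
  cases h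

theorem union_next (i : ι) (x y : (Hs i).Q) :
    (union Hs).next (some ⟨i, x⟩) (some ⟨i, y⟩) = some ⟨i, (Hs i).next x y⟩ := by
  simp [union]

theorem union_N (M : ℕ) (i : ι) : ∀ (v : List A) (w : (Hs i).Q) (W : List (Hs i).Q),
    v ≠ [] ∨ W ≠ [] →
    N (union Hs) v M (some ⟨i, w⟩) (W.map fun x => some ⟨i, x⟩) = N (Hs i) v M w W := by
  classical
  intro v
  induction v with
  | nil =>
    induction M with
    | zero =>
      intro w W hW
      rw [N_nil_zero, N_nil_zero]
      have : (union Hs).acc (some ⟨i, w⟩) ↔ (Hs i).acc w := by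
        constructor
        · rintro ⟨i', x, h, h2⟩
          cases h
          exact h2
        · intro h
          exact ⟨i, w, rfl, h⟩
      by_cases h : (Hs i).acc w
      · rw [if_pos (this.2 h), if_pos h]
      · rw [if_neg (fun h' => h (this.1 h')), if_neg h]
    | succ M ih =>
      intro w W hW
      obtain ⟨y, W, rfl⟩ := List.exists_cons_of_ne_nil (l := W) (by simpa using hW)
      rw [List.map_cons, N_nil_succ, N_nil_succ, union_next, ← ih _ _ (Or.inr (by simp))]
      simp
  | cons a v ih =>
    intro w W _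
    rw [N_cons, N_cons, Fintype.sum_option, if_neg (union_not_row Hs a _), zero_add,
      Fintype.sum_sigma, Finset.sum_eq_single i]
    · refine Finset.sum_congr rfl fun x _ => ?_
      have h1 : (union Hs).row a (some ⟨i, w⟩) (some ⟨i, x⟩) ↔ (Hs i).row a w x := by
        rw [union_row_some]
        exact ⟨fun ⟨_, h⟩ => h, fun h => ⟨rfl, h⟩⟩
      by_cases hx : (Hs i).row a w x
      · rw [if_pos (h1.2 hx), if_pos hx, ← ih x (W ++ [x]) (Or.inr (by simp)), List.map_append]
        rfl
      · rw [if_neg (fun h' => hx (h1.1 h')), if_neg hx]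
    · intro i' _ hi'
      refine Finset.sum_eq_zero fun x _ => ?_
      rw [if_neg]
      rw [union_row_some]
      rintro ⟨h, _⟩
      exact hi' h
    · intro h
      exact absurd (Finset.mem_univ _) h

theorem union_count (v : List A) (M : ℕ) (hv : v ≠ []) :
    (union Hs).count v M = ∑ i, (Hs i).count v M := by
  classical
  obtain ⟨a, v, rfl⟩ := List.exists_cons_of_ne_nil hv
  rw [count_eq, N_cons, Fintype.sum_option, if_neg (union_not_row Hs a _), zero_add,
      Fintype.sum_sigma]
  refine Finset.sum_congr rfl fun i _ => ?_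
  rw [count_eq, N_cons]
  refine Finset.sum_congr rfl fun x _ => ?_
  have h1 : (union Hs).row a (union Hs).init (some ⟨i, x⟩) ↔ (Hs i).row a (Hs i).init x :=
    union_row_none Hs a i x
  by_cases hx : (Hs i).row a (Hs i).init x
  · rw [if_pos (h1.2 hx), if_pos hx, ← union_N Hs M i v x ([] ++ [x]) (Or.inr (by simp))]
    rfl
  · rw [if_neg (fun h' => hx (h1.1 h')), if_neg hx]

end Union

/-! ### Observers -/

section Obs

variable (H : HSys A) {Z : Type} [Fintype Z] [DecidableEq Z] (z₀ : Z) (u : Z → H.Q → Z)
  (P : Z → Prop)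

/-- `H` with an additional deterministic automaton reading the states -/
abbrev obs : HSys A where
  Q := H.Q × Z
  fin := inferInstance
  dec := inferInstance
  init := (H.init, z₀)
  row := fun a s t => H.row a s.1 t.1 ∧ t.2 = u s.2 t.1
  next := fun s t => (H.next s.1 t.1, u s.2 (H.next s.1 t.1))
  acc := fun s => H.acc s.1 ∧ P s.2

/-- add the states of the observer -/
def dcr (u : Z → H.Q → Z) : Z → List H.Q → List (H.Q × Z)
  | _, [] => []
  | z, x :: s => (x, u z x) :: dcr u (u z x) s

omit [Fintype Z] [DecidableEq Z] in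
theorem map_dcr (s : List H.Q) : ∀ z, (dcr H u z s).map Prod.fst = s := by
  induction s with
  | nil => intro z; rfl
  | cons x s ih => intro z; simp [dcr, ih]

theorem obs_ir (M : ℕ) : ∀ (v : List A) (w : H.Q) (z : Z) (W t : List (H.Q × Z)),
    v ≠ [] ∨ W ≠ [] →
    (IR (obs H z₀ u P) v M (w, z) W t ↔ IR H v M w (W.map Prod.fst) (t.map Prod.fst) ∧
      t = dcr H u z (t.map Prod.fst) ∧ P ((t.map Prod.fst).foldl u z)) := by
  intro v
  induction v with
  | nil =>
    induction M with
    | zero =>
      intro w z W t hW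
      rw [ir_nil_zero, ir_nil_zero]
      constructor
      · rintro ⟨rfl, h1, h2⟩
        exact ⟨⟨rfl, h1⟩, rfl, h2⟩
      · rintro ⟨⟨h, h1⟩, h2, h3⟩
        have : t = [] := by simpa using h
        subst this
        exact ⟨rfl, h1, h3⟩
    | succ M ih =>
      intro w z W t hW
      obtain ⟨y, W, rfl⟩ := List.exists_cons_of_ne_nil (l := W) (by simpa using hW)
      have hn : (obs H z₀ u P).next (w, z) y = (H.next w y.1, u z (H.next w y.1)) := rfl
      rw [List.map_cons]
      constructor
      · intro h
        obtain ⟨t', rfl, h1⟩ := (ir_nil_succ (obs H z₀ u P) M (w, z) y W t).1 h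
        rw [hn] at h1
        obtain ⟨h2, h3, h4⟩ := (ih _ _ _ _ (Or.inr (by simp))).1 h1
        refine ⟨(ir_nil_succ H M w y.1 _ _).2 ⟨t'.map Prod.fst, by simp, ?_⟩, ?_, ?_⟩
        · simpa using h2
        · rw [List.map_cons, hn]
          simp only [dcr]
          rw [← h3]
        · rw [List.map_cons, hn]
          simpa using h4
      · rintro ⟨h1, h2, h3⟩
        obtain ⟨t', h4, h5⟩ := (ir_nil_succ H M w y.1 _ _).1 h1
        cases t with
        | nil => simp at h4
        | cons x t =>
          rw [List.map_cons] at h2 h3 h4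
          obtain ⟨h6, h7⟩ := List.cons.inj h4
          simp only [dcr] at h2
          obtain ⟨h8, h9⟩ := List.cons.inj h2
          have hx : x = (obs H z₀ u P).next (w, z) y := by
            rw [hn, h8, h6]
          refine (ir_nil_succ (obs H z₀ u P) M (w, z) y W _).2 ⟨t, by rw [hx], ?_⟩
          rw [hn]
          refine (ih _ _ _ _ (Or.inr (by simp))).2 ⟨?_, ?_, ?_⟩
          · rw [h7]
            simpa using h5
          · rw [← h6]
            exact h9
          · rw [← h6]
            simpa using h3
  | cons a v ih =>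
    intro w z W t _
    constructor
    · intro h
      obtain ⟨x, t', rfl, hr, h1⟩ := (ir_cons (obs H z₀ u P) a v M (w, z) W t).1 h
      obtain ⟨x, z'⟩ := x
      obtain ⟨hr1, hr2⟩ := hr
      obtain ⟨h2, h3, h4⟩ := (ih _ _ _ _ (Or.inr (by simp))).1 h1
      have hr2' : z' = u z x := hr2
      subst hr2'
      refine ⟨(ir_cons H a v M w _ _).2 ⟨x, t'.map Prod.fst, by simp, hr1, ?_⟩, ?_, ?_⟩
      · simpa using h2
      · rw [List.map_cons]
        simp only [dcr]
        rw [← h3]
      · rw [List.map_cons]
        simpa using h4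
    · rintro ⟨h1, h2, h3⟩
      obtain ⟨x, t', h4, hr, h5⟩ := (ir_cons H a v M w _ _).1 h1
      cases t with
      | nil => simp at h4
      | cons x' t =>
        obtain ⟨x', z'⟩ := x'
        rw [List.map_cons] at h2 h3 h4
        obtain ⟨h6, h7⟩ := List.cons.inj h4
        simp only [dcr] at h2
        obtain ⟨h8, h9⟩ := List.cons.inj h2
        have h6' : x' = x := h6
        subst h6'
        have hz : z' = u z x' := (Prod.mk.inj h8).2
        subst hz
        refine (ir_cons (obs H z₀ u P) a v M (w, z) W _).2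
          ⟨(x', u z x'), t, rfl, ⟨hr, rfl⟩, ?_⟩
        refine (ih _ _ _ _ (Or.inr (by simp))).2 ⟨?_, ?_, ?_⟩
        · rw [h7]
          simpa using h5
        · exact h9
        · simpa using h3

theorem obs_count (v : List A) (M : ℕ) (hv : v ≠ []) :
    (obs H z₀ u P).count v M = Nat.card {s // H.IsRun v M s ∧ P (s.foldl u z₀)} := by
  have key := fun t => obs_ir H z₀ u P M v H.init z₀ [] t (Or.inl hv)
  refine Nat.card_congr
    { toFun := fun t => ⟨t.1.map Prod.fst, ?_⟩
      invFun := fun s => ⟨dcr H u z₀ s.1, ?_⟩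
      left_inv := ?_
      right_inv := ?_ }
  · have h := (key t.1).1 t.2
    exact ⟨h.1, h.2.2⟩
  · refine (key _).2 ⟨?_, ?_, ?_⟩
    · rw [map_dcr]
      exact s.2.1
    · rw [map_dcr]
    · rw [map_dcr]
      exact s.2.2
  · rintro ⟨t, ht⟩
    exact Subtype.ext ((key t).1 ht).2.1.symm
  · rintro ⟨s, hs⟩
    exact Subtype.ext (map_dcr H u s z₀)

end Obs

/-! ### Powers -/

section Pow

variable (H : HSys A) (j : ℕ)

/-- `j` runs at the same time -/
abbrev pow : HSys A where
  Q := Fin j → H.Q
  fin := inferInstance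
  dec := inferInstance
  init := fun _ => H.init
  row := fun a s t => ∀ l, H.row a (s l) (t l)
  next := fun s t l => H.next (s l) (t l)
  acc := fun s => ∀ l, H.acc (s l)

/-- the track `l` -/
def trk (t : List (Fin j → H.Q)) (l : Fin j) : List H.Q := t.map fun x => x l

theorem trk_getD (t : List (Fin j → H.Q)) (l : Fin j) (i : ℕ) :
    (trk H j t l).getD i H.init = (t.getD i (fun _ => H.init)) l := by
  rw [trk]
  simp only [List.getD_eq_getElem?_getD, List.getElem?_map]
  cases t[i]? <;> rfl

theorem trk_cons_getD (t : List (Fin j → H.Q)) (l : Fin j) (i : ℕ) :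
    (H.init :: trk H j t l).getD i H.init =
      (((fun _ => H.init) :: t).getD i (fun _ => H.init)) l := by
  rw [← trk_getD]
  rfl

theorem pow_isRun (hj : 0 < j) (v : List A) (M : ℕ) (t : List (Fin j → H.Q)) :
    (pow H j).IsRun v M t ↔ ∀ l, H.IsRun v M (trk H j t l) := by
  have hl : ∀ l, (trk H j t l).length = t.length := fun l => by simp [trk]
  constructor
  · rintro ⟨h1, h2, h3, h4⟩ l
    refine ⟨(hl l).trans h1, fun i a hi => ?_, fun i hi => ?_, ?_⟩
    · rw [trk_getD, trk_cons_getD]
      exact h2 i a hi l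
    · rw [trk_getD, trk_getD, trk_cons_getD]
      exact congrFun (h3 i hi) l
    · rw [trk_cons_getD]
      exact h4 l
  · intro h
    refine ⟨(hl ⟨0, hj⟩).symm.trans (h ⟨0, hj⟩).1, fun i a hi l => ?_, fun i hi => ?_, fun l => ?_⟩
    · have := (h l).2.1 i a hi
      rw [trk_getD, trk_cons_getD] at this
      exact this
    · funext l
      have := (h l).2.2.1 i hi
      rw [trk_getD, trk_getD, trk_cons_getD] at this
      exact this
    · have := (h l).2.2.2
      rw [trk_cons_getD] at this
      exact this

end Pow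

/-! ### Flags -/

section Flags

variable {Q : Type} (rk : Q → ℕ) {j : ℕ}

/-- update the comparison of the tracks -/
def flg (f : Fin j → Fin j → Bool) (x : Fin j → Q) : Fin j → Fin j → Bool :=
  fun l l' => f l l' || (!f l' l && decide (rk (x l) < rk (x l')))

theorem foldl_flg (s : List (Fin j → Q)) : ∀ (f : Fin j → Fin j → Bool) (l l' : Fin j),
    s.foldl (flg rk) f l l' = true ↔ f l l' = true ∨ (f l' l = false ∧
      (s.map fun x => rk (x l)) < (s.map fun x => rk (x l'))) := by
  induction s with
  | nil => intro f l l'; simp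
  | cons x s ih =>
    intro f l l'
    rw [List.foldl_cons, ih, List.map_cons, List.map_cons, List.cons_lt_cons_iff]
    simp only [flg]
    rcases lt_trichotomy (rk (x l)) (rk (x l')) with h | h | h
    · cases h1 : f l l' <;> cases h2 : f l' l <;> simp [h, h.not_gt]
    · cases h1 : f l l' <;> cases h2 : f l' l <;> simp [h]
    · cases h1 : f l l' <;> cases h2 : f l' l <;> simp [h, h.not_gt, h.ne']

end Flags

/-! ### Counting -/

theorem card_strictMono (R : Type) [Fintype R] [LinearOrder R] (j : ℕ) :
    Nat.card {τ : Fin j → R // StrictMono τ} = (Fintype.card R).choose j := by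
  have e : {τ : Fin j → R // StrictMono τ} ≃ {s : Finset R // s.card = j} :=
   { toFun := fun τ => ⟨Finset.univ.image τ.1, by
        rw [Finset.card_image_of_injective _ τ.2.injective]; simp⟩
     invFun := fun s => ⟨s.1.orderEmbOfFin s.2, (s.1.orderEmbOfFin s.2).strictMono⟩
     left_inv := by
       rintro ⟨τ, hτ⟩
       apply Subtype.ext
       symm
       exact Finset.orderEmbOfFin_unique _ (fun x => by simp) hτ
     right_inv := by
       rintro ⟨s, hs⟩
       apply Subtype.ext
       apply Finset.coe_injective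
       rw [Finset.coe_image, Finset.coe_univ, Set.image_univ]
       exact Finset.range_orderEmbOfFin s hs }
  rw [Nat.card_congr e, Nat.card_eq_fintype_card, Fintype.card_finset_len]

theorem card_strictMono' (R : Type) [Finite R] (g : R → List ℕ) (hg : Function.Injective g)
    (j : ℕ) :
    Nat.card {τ : Fin j → R // ∀ l l', l < l' → g (τ l) < g (τ l')} = (Nat.card R).choose j := by
  classical
  let := Fintype.ofFinite R
  let : LinearOrder R := LinearOrder.lift' g hg
  rw [Nat.card_eq_fintype_card (α := R), ← card_strictMono R j]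
  exact Nat.card_congr (Equiv.subtypeEquivRight fun τ => Iff.rfl)

/-- sets of `j` runs -/
theorem choose_sys (H : HSys A) (j : ℕ) (hj : 0 < j) :
    ∃ H' : HSys A, ∀ (v : List A) (M : ℕ), v ≠ [] → H'.count v M = (H.count v M).choose j := by
  classical
  set rk : H.Q → ℕ := fun q => (Fintype.equivFin H.Q q).val with hrk
  have rk_inj : Function.Injective rk := fun x y h =>
    (Fintype.equivFin H.Q).injective (Fin.ext h)
  refine ⟨obs (pow H j) (fun _ _ => false) (flg rk) (fun f => ∀ l l', l < l' → f l l' = true),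
    fun v M hv => ?_⟩
  rw [obs_count _ _ _ _ v M hv]
  have hfin : Finite {s // H.IsRun v M s} := finite_ir H v M H.init []
  rw [HSys.count, ← card_strictMono' {s // H.IsRun v M s} (fun s => s.1.map rk)
    (fun s t h => Subtype.ext (List.map_injective_iff.2 rk_inj h)) j]
  have hkey : ∀ (s : List (Fin j → H.Q)) (l l' : Fin j),
      s.foldl (flg rk) (fun _ _ => false) l l' = true ↔
        (trk H j s l).map rk < (trk H j s l').map rk := by
    intro s l l'
    rw [foldl_flg]
    simp [trk, Function.comp_def]
  let Φ : {s : List (Fin j → H.Q) // (pow H j).IsRun v M s ∧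
      (fun f => ∀ l l', l < l' → f l l' = true) (s.foldl (flg rk) (fun _ _ => false))} →
      {τ : Fin j → {s // H.IsRun v M s} // ∀ l l', l < l' → (τ l).1.map rk < (τ l').1.map rk} :=
    fun s => ⟨fun l => ⟨trk H j s.1 l, (pow_isRun H j hj v M s.1).1 s.2.1 l⟩,
      fun l l' hl => (hkey s.1 l l').1 (s.2.2 l l' hl)⟩
  refine Nat.card_eq_of_bijective Φ ⟨?_, ?_⟩
  · rintro ⟨s, hs⟩ ⟨t, ht⟩ h
    have h1 : ∀ l, trk H j s l = trk H j t l := by
      intro l
      have := congrFun (congrArg Subtype.val h) l
      exact congrArg Subtype.val this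
    refine Subtype.ext (List.ext_getElem ?_ fun i h2 h3 => ?_)
    · have := congrArg List.length (h1 ⟨0, hj⟩)
      simpa [trk] using this
    · funext l
      have := congrArg (fun s => s[i]?) (h1 l)
      simpa [trk, h2, h3] using this
  · rintro ⟨τ, hτ⟩
    let t : List (Fin j → H.Q) :=
      (List.range (v.length + M)).map fun i l => (τ l).1.getD i H.init
    have ht : ∀ l, trk H j t l = (τ l).1 := by
      intro l
      have hlen : (τ l).1.length = v.length + M := (τ l).2.1
      refine List.ext_getElem (by simp [trk, t, hlen]) fun i h2 h3 => ?_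
      simp [trk, t, h3]
    refine ⟨⟨t, (pow_isRun H j hj v M t).2 fun l => ?_, fun l l' hl => (hkey t l l').2 ?_⟩, ?_⟩
    · rw [ht]
      exact (τ l).2
    · rw [ht, ht]
      exact hτ l l' hl
    · refine Subtype.ext (funext fun l => Subtype.ext ?_)
      exact ht l

theorem sub : SubStmt := by
  intro A _ H K
  choose Hj hHj using fun j : Fin K => choose_sys H (j.val + 1) (Nat.succ_pos _)
  refine ⟨union Hj, fun v M hv => ?_⟩
  rw [union_count Hj v M hv]
  simp only [hHj _ v M hv]
  rw [← Finset.sum_range (fun j => (H.count v M).choose (j + 1))]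
  rw [Finset.range_eq_Ico, Finset.sum_Ico_add' (fun j => (H.count v M).choose j) 0 K 1]
  refine Finset.sum_congr ?_ fun _ _ => rfl
  ext x
  simp

end Pool.Agent.HAM.H98
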