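import Pool.Agent.Helper43_HAM.Stmts

/-!
# Helical systems: recursion for the number of accepting runs
-/

namespace Pool.Agent.HAM.H98

variable {A : Type} (H : HSys A)

attribute [local instance] HSys.fin HSys.dec

/-- accepting runs of the remaining cells: `w` is the state to the west, `W` the list of the
states of the cells so far -/
def IR (v : List A) (M : ℕ) (w : H.Q) (W : List H.Q) (t : List H.Q) : Prop :=
  t.length = v.length + M ∧
  (∀ i a, v[i]? = some a → H.row a ((w :: t).getD i H.init) (t.getD i H.init)) ∧
  (∀ j < M, t.getD (v.length + j) H.init =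
    H.next ((w :: t).getD (v.length + j) H.init) ((W ++ t).getD j H.init)) ∧
  H.acc ((w :: t).getD (v.length + M) H.init)

theorem isRun_iff (v : List A) (M : ℕ) (s : List H.Q) : H.IsRun v M s ↔ IR H v M H.init [] s :=
  Iff.rfl

theorem ir_cons (a : A) (v : List A) (M : ℕ) (w : H.Q) (W t : List H.Q) :
    IR H (a :: v) M w W t ↔
      ∃ x t', t = x :: t' ∧ H.row a w x ∧ IR H v M x (W ++ [x]) t' := by
  constructor
  · rintro ⟨h1, h2, h3, h4⟩
    cases t with
    | nil => simp at h1; omega
    | cons x t' =>
      refine ⟨x, t', rfl, ?_, ?_, ?_, ?_, ?_⟩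
      · simpa using h2 0 a (by simp)
      · simp at h1; omega
      · intro i a' hi
        simpa using h2 (i + 1) a' (by simpa using hi)
      · intro j hj
        have h := h3 j hj
        have e : (a :: v).length + j = (v.length + j) + 1 := by simp; omega
        rw [e] at h
        simpa using h
      · have e : (a :: v).length + M = (v.length + M) + 1 := by simp; omega
        rw [e] at h4
        simpa using h4
  · rintro ⟨x, t', rfl, hr, h1, h2, h3, h4⟩
    refine ⟨?_, ?_, ?_, ?_⟩
    · simp [h1]; omega
    · intro i a' hi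
      cases i with
      | zero =>
        simp at hi
        subst hi
        simpa using hr
      | succ i =>
        simpa using h2 i a' (by simpa using hi)
    · intro j hj
      have e : (a :: v).length + j = (v.length + j) + 1 := by simp; omega
      rw [e]
      simpa using h3 j hj
    · have e : (a :: v).length + M = (v.length + M) + 1 := by simp; omega
      rw [e]
      simpa using h4

theorem ir_nil_succ (M : ℕ) (w y : H.Q) (W t : List H.Q) :
    IR H [] (M + 1) w (y :: W) t ↔
      ∃ t', t = H.next w y :: t' ∧ IR H [] M (H.next w y) (W ++ [H.next w y]) t' := by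
  constructor
  · rintro ⟨h1, h2, h3, h4⟩
    cases t with
    | nil => simp at h1
    | cons x t' =>
      have hx : x = H.next w y := by simpa using h3 0 (by omega)
      subst hx
      refine ⟨t', rfl, ?_, ?_, ?_, ?_⟩
      · simpa using h1
      · intro i a' hi
        simp at hi
      · intro j hj
        have h := h3 (j + 1) (by omega)
        simpa using h
      · simpa using h4
  · rintro ⟨t', rfl, h1, h2, h3, h4⟩
    refine ⟨?_, ?_, ?_, ?_⟩
    · simpa using h1
    · intro i a' hi
      simp at hi
    · intro j hj
      cases j with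
      | zero => simp
      | succ j => simpa using h3 j (by omega)
    · simpa using h4

theorem ir_nil_zero (w : H.Q) (W t : List H.Q) : IR H [] 0 w W t ↔ t = [] ∧ H.acc w := by
  constructor
  · rintro ⟨h1, h2, h3, h4⟩
    have ht : t = [] := by simpa using h1
    subst ht
    exact ⟨rfl, by simpa using h4⟩
  · rintro ⟨rfl, h⟩
    exact ⟨rfl, by simp, by simp, by simpa using h⟩

/-- number of accepting runs of the remaining cells -/
noncomputable def N (v : List A) (M : ℕ) (w : H.Q) (W : List H.Q) : ℕ :=
  Nat.card {t // IR H v M w W t}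

theorem count_eq (v : List A) (M : ℕ) : H.count v M = N H v M H.init [] := rfl

theorem finite_ir (v : List A) (M : ℕ) (w : H.Q) (W : List H.Q) :
    Finite {t // IR H v M w W t} := by
  have h := List.finite_length_eq H.Q (v.length + M)
  exact (h.subset fun t ht => ht.1).to_subtype

open Classical in
theorem N_cons (a : A) (v : List A) (M : ℕ) (w : H.Q) (W : List H.Q) :
    N H (a :: v) M w W = ∑ x : H.Q, if H.row a w x then N H v M x (W ++ [x]) else 0 := by
  have e : {t // IR H (a :: v) M w W t} ≃
      Σ x : H.Q, {t' // H.row a w x ∧ IR H v M x (W ++ [x]) t'} :=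
    { toFun := fun t => by
        refine ⟨t.1.headD H.init, t.1.tail, ?_⟩
        obtain ⟨x, t', h, h1, h2⟩ := (ir_cons H a v M w W t.1).1 t.2
        rw [h]
        exact ⟨h1, h2⟩
      invFun := fun p => ⟨p.1 :: p.2.1, (ir_cons H a v M w W _).2 ⟨p.1, p.2.1, rfl, p.2.2⟩⟩
      left_inv := by
        rintro ⟨t, ht⟩
        obtain ⟨x, t', h, h1, h2⟩ := (ir_cons H a v M w W t).1 ht
        subst h
        rfl
      right_inv := by
        rintro ⟨x, t', ht⟩
        rfl }
  have hf : ∀ x : H.Q, Finite {t' // H.row a w x ∧ IR H v M x (W ++ [x]) t'} := by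
    intro x
    have h := List.finite_length_eq H.Q (v.length + M)
    exact (h.subset fun t ht => ht.2.1).to_subtype
  rw [N, Nat.card_congr e, Nat.card_sigma]
  refine Finset.sum_congr rfl fun x _ => ?_
  by_cases hx : H.row a w x
  · simp [hx, N]
  · simp [hx]

theorem N_nil_succ (M : ℕ) (w y : H.Q) (W : List H.Q) :
    N H [] (M + 1) w (y :: W) = N H [] M (H.next w y) (W ++ [H.next w y]) := by
  have e : {t // IR H [] (M + 1) w (y :: W) t} ≃
      {t' // IR H [] M (H.next w y) (W ++ [H.next w y]) t'} :=
    { toFun := fun t => by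
        refine ⟨t.1.tail, ?_⟩
        obtain ⟨t', h, h1⟩ := (ir_nil_succ H M w y W t.1).1 t.2
        rw [h]
        exact h1
      invFun := fun p => ⟨H.next w y :: p.1, (ir_nil_succ H M w y W _).2 ⟨p.1, rfl, p.2⟩⟩
      left_inv := by
        rintro ⟨t, ht⟩
        obtain ⟨t', h, h1⟩ := (ir_nil_succ H M w y W t).1 ht
        subst h
        rfl
      right_inv := by
        rintro ⟨t', ht⟩
        rfl }
  exact Nat.card_congr e

open Classical in
theorem N_nil_zero (w : H.Q) (W : List H.Q) :
    N H [] 0 w W = if H.acc w then 1 else 0 := by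
  by_cases h : H.acc w
  · have e : {t // IR H [] 0 w W t} ≃ {t : List H.Q // t = []} :=
      Equiv.subtypeEquivRight fun t => by rw [ir_nil_zero]; simp [h]
    rw [N, Nat.card_congr e]
    simp [h]
  · have : IsEmpty {t // IR H [] 0 w W t} := ⟨fun t => h ((ir_nil_zero H w W t.1).1 t.2).2⟩
    rw [N, Nat.card_of_isEmpty]
    simp [h]

end Pool.Agent.HAM.H98
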